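import Pool.Agent.TH755.KA.Two

set_option autoImplicit false

/-! Descriptions of the candidates. Adapted from `Pool.Agent.TH671.KS` (helper671). -/

namespace Pool.Agent.TH755.KA

open Turing Pool.Agent.H583R2 Filter Pool.Agent.TH671.KS
open Pool.Agent.H545R2.KS (Machine Outputs K Separable PeqNP NPComplete Paddable
  pf_pairBits spl_pairBits pairBits_length pairBits_inj
  pf_of_polyTime polyTime_of_pf pf_eval pf_pow poly_le_pow eval_mono)
open Pool.Agent.NPC (PolyTime pairBits InNP InP NPHard Reduces)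

/-- the string `F y` has a short description -/
theorem exists_index3 {U : Machine} (hU : IsUniversal U) {F : List Bool → List Bool}
    (hF : HP F (fun y => 2 ^ 2 ^ idx (spl (rr y)).1)) :
    ∃ c : ℕ, ∀ (i : ℕ) (e : Option Bool) (r : List Bool), ∃ y' : List Bool,
      y'.length ≤ 2 * Nat.log 2 (i + 1) + r.length + c ∧
      Outputs U y' (F (ds e (pairBits (str i) r))) ((2 ^ 2 ^ i + r.length) ^ c) := by
  obtain ⟨k1, hk1⟩ := hF.size
  obtain ⟨C, hC, k, hk⟩ := hF
  obtain ⟨M, hM⟩ := exists_machine hC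
  obtain ⟨e0, c0, h0⟩ := hU M
  refine ⟨e0.length + 3 + (6 * k + 6 * k1 + 12) * c0, fun i e r =>
    ⟨e0 ++ ds e (pairBits (str i) r), ?_, ?_⟩⟩
  · have h1 := le_idx (str i)
    rw [idx_str] at h1
    have h2 : (str i).length ≤ Nat.log 2 (i + 1) := Nat.le_log_of_pow_le (by norm_num) h1
    rw [List.length_append, ds_length, pairBits_length]
    omega
  · set y := ds e (pairBits (str i) r) with hy
    have h1 := h0 y (F y) _ (hM y)
    refine Outputs.mono h1 ?_
    have h2 := hk y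
    have h3 := hk1 y
    have h4 : (F y).length < sz (F y) := length_lt_sz _
    beta_reduce at h2 h3
    rw [hy, rr_ds, spl_pairBits] at h2 h3
    dsimp only at h2 h3
    rw [idx_str, ← hy] at h2 h3
    have h5 := le_idx (str i)
    rw [idx_str] at h5
    have h6 : (str i).length < 2 ^ (str i).length := Nat.lt_two_pow_self
    have h7 : i < 2 ^ i := Nat.lt_two_pow_self
    have h8 : 2 ^ i < 2 ^ 2 ^ i := Nat.lt_two_pow_self
    have h9 : y.length = 2 * (str i).length + 3 + r.length := by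
      rw [hy, ds_length, pairBits_length]; omega
    have h10 := sz_str_le y
    have h7' : 1 ≤ 2 ^ i := Nat.one_le_two_pow
    set n := 2 ^ 2 ^ i with hn
    have hn2 : 2 ≤ n := by omega
    have hin : i < n := by omega
    obtain ⟨m, hm⟩ : ∃ m, m = n + r.length := ⟨_, rfl⟩
    rw [← hm]
    have hm2 : 2 ≤ m := by omega
    have h11 : n + sz y + 2 ≤ m ^ 6 := by
      have e1 : m ^ 6 = m ^ 5 * m := pow_succ _ _
      have e2 : 2 ^ 5 ≤ m ^ 5 := Nat.pow_le_pow_left hm2 5
      have e3 : 32 * m ≤ m ^ 5 * m := Nat.mul_le_mul_right _ (by omega)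
      omega
    have h12 : C y ≤ m ^ (6 * k) := by
      rw [pow_mul]
      exact h2.trans (Nat.pow_le_pow_left h11 k)
    have h13 : sz (F y) ≤ m ^ (6 * k1) := by
      rw [pow_mul]
      exact h3.trans (Nat.pow_le_pow_left h11 k1)
    have h14 : 9 * y.length + C y + 12 * (F y).length + 8 + y.length + 2 ≤
        m ^ (6 * k + 6 * k1 + 12) := by
      have p1 : 1 ≤ m ^ (6 * k) := Nat.one_le_pow _ _ (by omega)
      have p2 : 1 ≤ m ^ (6 * k1) := Nat.one_le_pow _ _ (by omega)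
      have e0 : m ^ (6 * k + 6 * k1 + 12) = (m ^ (6 * k) * m ^ (6 * k1)) * (m ^ 11 * m) := by
        rw [pow_add, pow_add]; ring
      rw [e0]
      have e1 : 2 ^ 11 ≤ m ^ 11 := Nat.pow_le_pow_left hm2 11
      have e2 : 2048 * m ≤ m ^ 11 * m := Nat.mul_le_mul_right _ (by omega)
      have e3 : m ^ (6 * k) ≤ m ^ (6 * k) * m ^ (6 * k1) := Nat.le_mul_of_pos_right _ p2
      have e4 : m ^ (6 * k1) ≤ m ^ (6 * k) * m ^ (6 * k1) := Nat.le_mul_of_pos_left _ p1
      set P := m ^ (6 * k) * m ^ (6 * k1) with hP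
      have e5 : 1 ≤ P := Nat.mul_le_mul p1 p2
      have e6 : P * (2048 * m) ≤ P * (m ^ 11 * m) := Nat.mul_le_mul_left _ e2
      have e7 : m ≤ P * m := Nat.le_mul_of_pos_left _ e5
      have e8 : P * 2 ≤ P * m := Nat.mul_le_mul_left _ hm2
      have e9 : P * (2048 * m) = 2048 * (P * m) := by ring
      omega
    calc (9 * y.length + C y + 12 * (F y).length + 8 + y.length + 2) ^ c0
        ≤ (m ^ (6 * k + 6 * k1 + 12)) ^ c0 := Nat.pow_le_pow_left h14 c0
      _ = m ^ ((6 * k + 6 * k1 + 12) * c0) := by rw [← pow_mul]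
      _ ≤ m ^ (e0.length + 3 + (6 * k + 6 * k1 + 12) * c0) :=
        Nat.pow_le_pow_right (by omega) (by omega)

theorem hp_of3 {F : List Bool × ℕ → List Bool} (hF : PF F) {ρ : List Bool → List Bool}
    (hr : PF ρ) :
    HP (fun y => F (y, 2 ^ 2 ^ idx (ρ y))) (fun y => 2 ^ 2 ^ idx (ρ y)) := by
  have h1 : HP (fun y : List Bool => (y, 2 ^ ((ρ y).length + 1)))
      (fun y => 0 + 2 ^ ((ρ y).length + 1)) :=
    HP.two_pow (f := fun y : List Bool => (ρ y).length + 1)
      (HP.of_PF (PF.succ (PF.length hr)) (fun _ => 0))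
  have h2 : HP (fun y : List Bool => idx (ρ y)) (fun y => 0 + 2 ^ ((ρ y).length + 1)) := by
    have h3 : PF (fun a : List Bool × ℕ => min (idx (ρ a.1)) a.2) :=
      pf_idxCap (hr.comp PF.fst) PF.snd
    refine (HP.comp (HP.of_PF h3 (fun _ => 0)) h1 ⟨0, fun a => by simp⟩).congr ?_
    intro y
    have := idx_lt (ρ y)
    exact min_eq_left (by dsimp only; omega)
  have h3 : HP (fun y : List Bool => 2 ^ idx (ρ y))
      (fun y => 0 + 2 ^ ((ρ y).length + 1) + 2 ^ idx (ρ y)) :=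
    HP.comp (f := fun y : List Bool => (y, 2 ^ idx (ρ y))) (g := fun p : List Bool × ℕ => p.2)
      (HP.of_PF PF.snd (fun _ => 0)) (HP.two_pow h2) ⟨0, fun a => by simp⟩
  have h4 := HP.two_pow h3
  refine (HP.comp (HP.of_PF hF (fun _ => 0)) h4 ⟨0, fun a => by simp⟩).mono ?_
  refine ⟨4, fun y => ?_⟩
  have e1 := le_idx (ρ y)
  have e2 : idx (ρ y) < 2 ^ idx (ρ y) := Nat.lt_two_pow_self
  have e3 : 2 ^ idx (ρ y) < 2 ^ 2 ^ idx (ρ y) := Nat.lt_two_pow_self
  have e7 : ∀ B : ℕ, B ^ 4 = B ^ 3 * B := fun B => pow_succ B 3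
  rw [e7]
  have e8 : 2 ^ ((ρ y).length + 1) = 2 ^ (ρ y).length * 2 := pow_succ _ _
  set B := 2 ^ 2 ^ idx (ρ y) + sz y + 2 with hB
  have e4 : 8 ≤ 2 ^ 3 := by norm_num
  have e5 : 2 ^ 3 ≤ B ^ 3 := Nat.pow_le_pow_left (by omega) 3
  have e6 : 8 * B ≤ B ^ 3 * B := Nat.mul_le_mul_right _ (by omega)
  omega

end Pool.Agent.TH755.KA
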