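import Pool.Agent.TH671.KS.Thm2
import Pool.Agent.H545R2.KS.Sat

set_option autoImplicit false

/-! Formulas can be padded to any given odd length. -/

namespace Pool.Agent.NPC.KAPad

open Pool.Agent.NPC Pool.Agent.NPC.H545KS Pool.Agent.H545R2.KS

/-- two negations: 12 bits -/
def b12 : List Tok := [Sum.inr none, Sum.inr none]

/-- conjunction with `x ∨ ¬ x`: 32 bits -/
def b32 : List Tok := tT ++ [Sum.inr (some true)]

/-- conjunction with `x ∨ ¬ x ∨ x` for the variable number 2: 62 bits -/
def b62 : List Tok := [Sum.inl 2, Sum.inl 2, Sum.inr none, Sum.inr (some false), Sum.inl 2,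
  Sum.inr (some false), Sum.inr (some true)]

theorem b12_iff (τ : ℕ → Bool) (st : StM) :
    b12.foldl (stp τ) st = (true, [true]) ↔ st = (true, [true]) := by
  rcases st with ⟨b, s⟩
  rcases s with _ | ⟨v, s⟩
  · simp [b12, stp, stO]
  · simp [b12, stp, stO]

theorem b62_iff (τ : ℕ → Bool) (st : StM) :
    b62.foldl (stp τ) st = (true, [true]) ↔ st = (true, [true]) := by
  rcases st with ⟨b, s⟩
  rcases s with _ | ⟨v, s⟩
  · simp [b62, stp, stO]
  · simp [b62, stp, stO]

theorem rep_iff (τ : ℕ → Bool) (B : List Tok) (hB : ∀ st : StM,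
    B.foldl (stp τ) st = (true, [true]) ↔ st = (true, [true])) (u : List Bool) : ∀ st : StM,
    (u.flatMap (fun _ => B)).foldl (stp τ) st = (true, [true]) ↔ st = (true, [true]) := by
  induction u with
  | nil => intro st; simp
  | cons b u ih =>
    intro st
    rw [List.flatMap_cons, List.foldl_append, ih, hB]

theorem sz_rep (B : List Tok) (u : List Bool) :
    sz (u.flatMap (fun _ => B)) = u.length * (sz B - 1) + 1 := by
  induction u with
  | nil => simp
  | cons b u ih =>
    rw [List.flatMap_cons]
    have h1 := sz_append B (u.flatMap (fun _ => B))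
    have h2 := sz_pos B
    rw [ih] at h1
    rw [List.length_cons, add_mul, one_mul]
    omega

theorem sz_b12 : sz b12 = 13 := by decide
theorem sz_b32 : sz b32 = 33 := by decide
theorem sz_b62 : sz b62 = 63 := by decide

/-- the formula, or something invalid -/
def base (x : List Bool) : List Tok := (unbits (List Tok) x).getD [Sum.inr none]

/-- padding with given numbers of blocks -/
def pd (z : List Bool) : List Tok :=
  base (unpair z).1 ++ ((unpair (unpair z).2).1.flatMap (fun _ => b62) ++
    ((unpair (unpair (unpair z).2).2).1.flatMap (fun _ => b32) ++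
      (unpair (unpair (unpair z).2).2).2.flatMap (fun _ => b12)))

theorem poly_pd : Poly pd := by
  have u1 : Poly (fun z : List Bool => (unpair z).1) := Poly.fst poly_unpair
  have u2 : Poly (fun z : List Bool => (unpair z).2) := Poly.snd poly_unpair
  have v1 : Poly (fun z : List Bool => (unpair (unpair z).2).1) := u1.comp u2
  have v2 : Poly (fun z : List Bool => (unpair (unpair z).2).2) := u2.comp u2
  have w1 : Poly (fun z : List Bool => (unpair (unpair (unpair z).2).2).1) := u1.comp v2
  have w2 : Poly (fun z : List Bool => (unpair (unpair (unpair z).2).2).2) := u2.comp v2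
  have hb : Poly base := by
    refine (Poly.optCases (o := fun z : List Bool => unbits (List Tok) z)
      (g := fun _ => ([Sum.inr none] : List Tok)) (h := fun _ l => l)
      poly_unbits (Poly.const _) (Poly.snd Poly.id)).congr ?_
    intro z
    unfold base
    rcases unbits (List Tok) z with _ | l <;> rfl
  exact Poly.append (hb.comp u1) (Poly.append (Poly.flatMap (F := fun _ _ => b62) v1
    (Poly.const _)) (Poly.append (Poly.flatMap (F := fun _ _ => b32) w1 (Poly.const _))
      (Poly.flatMap (F := fun _ _ => b12) w2 (Poly.const _))))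

theorem sz_pd (x r b a : List Bool) : sz (pd (pairBits x (pairBits r (pairBits b a)))) =
    sz (base x) + 62 * r.length + 32 * b.length + 12 * a.length := by
  unfold pd
  simp only [unpair_pairBits]
  have h1 := sz_append (base x) (r.flatMap (fun _ => b62) ++ (b.flatMap (fun _ => b32) ++
    a.flatMap (fun _ => b12)))
  have h2 := sz_append (r.flatMap (fun _ => b62)) (b.flatMap (fun _ => b32) ++
    a.flatMap (fun _ => b12))
  have h3 := sz_append (b.flatMap (fun _ => b32)) (a.flatMap (fun _ => b12))
  rw [sz_rep, sz_rep, sz_b32, sz_b12] at h3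
  rw [sz_rep, sz_b62] at h2
  omega

theorem mem_pd (x r b a : List Bool) :
    bits (pd (pairBits x (pairBits r (pairBits b a)))) ∈ Pool.Agent.H545R2.KS.SAT ↔
      x ∈ Pool.Agent.H545R2.KS.SAT := by
  rw [SAT_eq, bits_mem_lang]
  unfold pd
  simp only [unpair_pairBits]
  have h1 : SatL (base x ++ (r.flatMap (fun _ => b62) ++ (b.flatMap (fun _ => b32) ++
      a.flatMap (fun _ => b12)))) ↔ SatL (base x) := by
    unfold SatL
    refine exists_congr fun τ => ?_
    rw [List.foldl_append, List.foldl_append, List.foldl_append, rep_iff τ b12 (b12_iff τ),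
      rep_iff τ b32 (block_iff τ), rep_iff τ b62 (b62_iff τ)]
  rw [h1]
  unfold base
  rcases hx : unbits (List Tok) x with _ | l
  · rw [Option.getD_none]
    constructor
    · rintro ⟨τ, h⟩
      exfalso
      simp [stp, stO] at h
    · intro h
      exfalso
      rw [mem_lang_iff] at h
      obtain ⟨a, ha, _⟩ := h
      rw [hx] at ha
      simp at ha
  · rw [Option.getD_some]
    have hxl := bits_of_unbits hx
    subst hxl
    rw [bits_mem_lang]

theorem sz_base (x : List Bool) : sz (base x) ≤ x.length + 7 ∧ Odd (sz (base x)) := by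
  constructor
  · unfold base
    rcases hx : unbits (List Tok) x with _ | l
    · rw [Option.getD_none]
      simp
    · rw [Option.getD_some]
      have hxl := bits_of_unbits hx
      subst hxl
      rw [bits_length]
      omega
  · have hodd : ∀ t : T, Odd t.size := by
      intro t
      induction t with
      | nil => exact ⟨0, rfl⟩
      | node a b iha ihb =>
        obtain ⟨p, hp⟩ := iha
        obtain ⟨q, hq⟩ := ihb
        refine ⟨p + q + 1, ?_⟩
        have h : (T.node a b).size = a.size + b.size + 1 := by simp
        omega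
    exact hodd _

/-- existence of numbers of blocks -/
theorem exists_blocks {z u : ℕ} (hz : Odd z) (hu : z + 130 ≤ 2 * u + 1) :
    ∃ r < 2, ∃ b < 3, ∃ a < u + 1, z + 62 * r + 32 * b + 12 * a = 2 * u + 1 := by
  obtain ⟨w, rfl⟩ := hz
  obtain ⟨d, hd⟩ : ∃ d, u = w + d := ⟨u - w, by omega⟩
  subst hd
  -- the difference is `2 d`
  have key : ∀ k, 16 ≤ k → ∃ b < 3, ∃ a ≤ k, 8 * b + 3 * a = k := by
    intro k hk
    rcases (by omega : k % 3 = 0 ∨ k % 3 = 1 ∨ k % 3 = 2) with h | h | h
    · exact ⟨0, by omega, k / 3, by omega, by omega⟩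
    · exact ⟨2, by omega, (k - 16) / 3, by omega, by omega⟩
    · exact ⟨1, by omega, (k - 8) / 3, by omega, by omega⟩
  rcases Nat.even_or_odd' d with ⟨k, hk | hk⟩
  · obtain ⟨b, hb, a, ha, h⟩ := key k (by omega)
    exact ⟨0, by omega, b, hb, a, by omega, by omega⟩
  · obtain ⟨b, hb, a, ha, h⟩ := key (k - 15) (by omega)
    exact ⟨1, by omega, b, hb, a, by omega, by omega⟩

end Pool.Agent.NPC.KAPad

namespace Pool.Agent.TH755.KA

open Pool.Agent.H583R2 Pool.Agent.NPC.KAPad
open Pool.Agent.H545R2.KS (SAT pf_pairBits pf_of_polyTime)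
open Pool.Agent.NPC (PolyTime pairBits)

/-- the candidates -/
noncomputable def cands (x : List Bool) (u : ℕ) : List (List Bool) :=
  (List.range 2).flatMap (fun r => (List.range 3).flatMap (fun b =>
    (List.range (u + 1)).map (fun a => Pool.Agent.NPC.bits (pd (pairBits x
      (pairBits (List.replicate r true) (pairBits (List.replicate b true)
        (List.replicate a true))))))))

/-- the formula `x`, padded to length `2 u + 1` -/
noncomputable def padE (a : List Bool × ℕ) : List Bool :=
  ((cands a.1 a.2).find? (fun y => decide (y.length = 2 * a.2 + 1))).getD []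

theorem pf_padE : PF padE := by
  have hp : PF (fun z : List Bool => Pool.Agent.NPC.bits (pd z)) :=
    pf_of_polyTime (Pool.Agent.NPC.polyTime_bits poly_pd)
  have h1 : PF (fun a : List Bool × ℕ => cands a.1 a.2) := by
    refine PF.flatMap (l := fun _ : List Bool × ℕ => List.range 2)
      (f := fun a r => (List.range 3).flatMap (fun b =>
        (List.range (a.2 + 1)).map (fun k => Pool.Agent.NPC.bits (pd (pairBits a.1
      (pairBits (List.replicate r true) (pairBits (List.replicate b true)
        (List.replicate k true)))))))) (PF.const _) ?_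
    refine PF.flatMap (l := fun _ : (List Bool × ℕ) × ℕ => List.range 3)
      (f := fun a b => (List.range (a.1.2 + 1)).map (fun k => Pool.Agent.NPC.bits (pd
        (pairBits a.1.1 (pairBits (List.replicate a.2 true) (pairBits (List.replicate b true)
        (List.replicate k true))))))) (PF.const _) ?_
    refine PF.map (l := fun a : ((List Bool × ℕ) × ℕ) × ℕ => List.range (a.1.1.2 + 1))
      (f := fun a k => Pool.Agent.NPC.bits (pd
        (pairBits a.1.1.1 (pairBits (List.replicate a.1.2 true)
          (pairBits (List.replicate a.2 true) (List.replicate k true))))))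
      (PF.range (PF.succ (PF.snd' (PF.fst' PF.fst)))) ?_
    exact hp.comp (pf_pairBits (PF.fst' (PF.fst' (PF.fst' PF.fst)))
      (pf_pairBits (PF.replicate (PF.snd' (PF.fst' PF.fst)) (PF.const true))
        (pf_pairBits (PF.replicate (PF.snd' PF.fst) (PF.const true))
          (PF.replicate PF.snd (PF.const true)))))
  exact PF.getD (PF.find (l := fun a : List Bool × ℕ => cands a.1 a.2)
    (f := fun a y => decide (y.length = 2 * a.2 + 1)) h1
    (PF.natEq (PF.length PF.snd) (PF.succ (PF.mul (PF.const 2) (PF.snd' PF.fst))))) (PF.const [])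

theorem padE_spec {x : List Bool} {u : ℕ} (hu : x.length + 150 ≤ 2 * u) :
    (padE (x, u)).length = 2 * u + 1 ∧ (padE (x, u) ∈ SAT ↔ x ∈ SAT) := by
  obtain ⟨h1, h2⟩ := sz_base x
  obtain ⟨r, hr, b, hb, a, ha, h⟩ := exists_blocks (z := Pool.Agent.NPC.sz (base x)) (u := u) h2
    (by omega)
  have hmem : Pool.Agent.NPC.bits (pd (pairBits x
      (pairBits (List.replicate r true) (pairBits (List.replicate b true)
        (List.replicate a true))))) ∈ cands x u := by
    unfold cands
    simp only [List.mem_flatMap, List.mem_map, List.mem_range]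
    exact ⟨r, hr, b, hb, a, ha, rfl⟩
  have hlen : (Pool.Agent.NPC.bits (pd (pairBits x
      (pairBits (List.replicate r true) (pairBits (List.replicate b true)
        (List.replicate a true)))))).length = 2 * u + 1 := by
    rw [Pool.Agent.NPC.bits_length, sz_pd]
    simp only [List.length_replicate]
    exact h
  obtain ⟨y, hy⟩ : ∃ y, (cands x u).find? (fun y => decide (y.length = 2 * u + 1)) = some y := by
    rw [← Option.isSome_iff_exists, List.find?_isSome]
    exact ⟨_, hmem, by simpa using hlen⟩
  have hy1 := List.find?_some hy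
  have hy2 := List.mem_of_find?_eq_some hy
  have e : padE (x, u) = y := by
    unfold padE
    dsimp only
    rw [hy]
    rfl
  rw [e]
  refine ⟨by simpa using hy1, ?_⟩
  unfold cands at hy2
  simp only [List.mem_flatMap, List.mem_map, List.mem_range] at hy2
  obtain ⟨r', -, b', -, a', -, rfl⟩ := hy2
  exact mem_pd _ _ _ _

end Pool.Agent.TH755.KA
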