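import Pool.Agent.TH671.KS.Thm2

set_option autoImplicit false

/-!
The search for a failure, guided by an oracle with advice. The proofs are adapted from
`Pool.Agent.TH671.KS.Two` (helper671), where there is no advice.
-/

namespace Pool.Agent.TH755.KA.Ex

open Turing Pool.Agent.H583R2 Filter Pool.Agent.TH671.KS
open Pool.Agent.H545R2.KS (Machine Outputs K Separable PeqNP NPComplete Paddable
  pf_pairBits spl_pairBits pairBits_length pairBits_inj
  pf_of_polyTime polyTime_of_pf pf_eval pf_pow poly_le_pow eval_mono)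
open Pool.Agent.NPC (PolyTime pairBits InNP InP NPHard Reduces)

/-- data: a verifier `V` with certificate bound `p` for `A`, the characteristic function `σ` of
`S` with advice, the two reductions (the first gets the parameter `m` too, for the padding), and
the bound `cnt` for the number of the advice strings -/
structure Dat4 where
  V : List Bool → Bool
  p : Polynomial ℕ
  σ : List Bool × List Bool → Bool
  hX : (ℕ × List Bool) × List Bool → List Bool
  hT : ℕ × List Bool → List Bool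
  cnt : Polynomial ℕ

theorem iter_len (W s : List Bool → Bool) (n : ℕ) : ((stp W s)^[n] []).length ≤ n := by
  induction n with
  | zero => simp
  | succ n ih =>
    rw [Function.iterate_succ_apply']
    rcases stp_cases W s ((stp W s)^[n] []) with h | ⟨h, -⟩
    · rw [h]; omega
    · rw [h]; omega

theorem ext_len (e : Option Bool) : (ext e).length ≤ 1 := by
  rcases e with _ | b <;> simp [ext]

namespace Dat4

variable (D : Dat4)

/-- `w` is a certificate for `x` -/
def C (x w : List Bool) : Bool := D.V (pairBits x w) && decide (w.length ≤ D.p.eval x.length)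

/-- result of the search for a certificate of `x` with advice `α` -/
def fX (m : ℕ) (α x : List Bool) : List Bool :=
  (stp (D.C x) (fun q => D.σ (α, D.hX ((m, x), q))))^[D.p.eval x.length + 1] []

/-- the search is successful -/
def suc1 (m : ℕ) (α x : List Bool) : Bool := D.C x (D.fX m α x)

/-- the search is successful with some advice -/
def sucm (m : ℕ) (x : List Bool) : Bool :=
  (List.range (D.cnt.eval m)).any (fun i => D.suc1 m (str i) x)

/-- the algorithm for `A` -/
def alg (x : List Bool) : Bool :=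
  (List.range (x.length * x.length + 1)).any (fun m => D.sucm m x)

/-- `z` is a pair of a string `x` of length at most `m < |x| ^ 2` for which the search fails, and
of a certificate of `x` -/
def W (m : ℕ) (z : List Bool) : Bool :=
  (pairBits (spl z).1 (spl z).2 == z) && (D.C (spl z).1 (spl z).2 && (!(D.sucm m (spl z).1) &&
    (decide ((spl z).1.length ≤ m) && decide (m < (spl z).1.length * (spl z).1.length))))

/-- bound for the length of `z` -/
def bd (m : ℕ) : ℕ := 2 * m + 1 + D.p.eval m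

theorem W_length {m : ℕ} {z : List Bool} (h : D.W m z = true) : z.length ≤ D.bd m := by
  simp only [W, C, Bool.and_eq_true, beq_iff_eq, decide_eq_true_eq] at h
  obtain ⟨h1, ⟨-, h3⟩, -, h2, -⟩ := h
  rw [← h1, pairBits_length]
  have := eval_mono D.p h2
  unfold bd
  omega

/-- result of the search for `z` with advice `α` -/
def fT (α : List Bool) (m : ℕ) : List Bool :=
  (stp (D.W m) (fun q => D.σ (α, D.hT (m, q))))^[D.bd m + 1] []

/-- the candidates -/
def out (m : ℕ) (α₁ α₂ : List Bool) (e : Option Bool) : List Bool :=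
  if D.W m (D.fT α₂ m) then
    D.hX ((m, (spl (D.fT α₂ m)).1), D.fX m α₁ (spl (D.fT α₂ m)).1 ++ ext e)
  else D.hT (m, D.fT α₂ m ++ ext e)

/-- one of the candidates is a mistake of `σ` -/
theorem main {A : Set (List Bool)} {m L1 L2 : ℕ}
    (hhX : ∀ x q, x.length ≤ m → q.length ≤ D.p.eval m + 2 →
      (D.hX ((m, x), q) ∈ A ↔ ∃ r, D.C x (q ++ r) = true))
    (hhT : ∀ q, q.length ≤ D.bd m + 2 → (D.hT (m, q) ∈ A ↔ ∃ r, D.W m (q ++ r) = true))
    (hl1 : ∀ x q, x.length ≤ m → q.length ≤ D.p.eval m + 2 → (D.hX ((m, x), q)).length = L1)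
    (hl2 : ∀ q, q.length ≤ D.bd m + 2 → (D.hT (m, q)).length = L2)
    (hR : ∃ r, D.W m r = true) {α₁ : List Bool} (hα : idx α₁ < D.cnt.eval m) (α₂ : List Bool) :
    ∃ e, ((¬ (D.σ (α₁, D.out m α₁ α₂ e) = true ↔ D.out m α₁ α₂ e ∈ A) ∧
        (D.out m α₁ α₂ e).length = L1) ∨
      (¬ (D.σ (α₂, D.out m α₁ α₂ e) = true ↔ D.out m α₁ α₂ e ∈ A) ∧
        (D.out m α₁ α₂ e).length = L2)) := by
  by_cases hW : D.W m (D.fT α₂ m) = true
  · have h1 := hW
    simp only [W, Bool.and_eq_true, Bool.not_eq_true', decide_eq_true_eq] at h1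
    obtain ⟨-, h2, h3, h4, h5⟩ := h1
    have h3' : D.suc1 m α₁ (spl (D.fT α₂ m)).1 = false := by
      unfold sucm at h3
      rw [List.any_eq_false] at h3
      have := h3 (idx α₁) (List.mem_range.2 hα)
      rw [str_idx] at this
      simpa using this
    obtain ⟨e, he⟩ := mistake (D.C (spl (D.fT α₂ m)).1)
      (fun q => D.σ (α₁, D.hX ((m, (spl (D.fT α₂ m)).1), q)))
      (D.p.eval (spl (D.fT α₂ m)).1.length) (fun z hz => by
        simp only [C, Bool.and_eq_true, decide_eq_true_eq] at hz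
        exact hz.2) ⟨_, h2⟩ h3'
    have hlen : (D.fX m α₁ (spl (D.fT α₂ m)).1 ++ ext e).length ≤ D.p.eval m + 2 := by
      have h6 := iter_len (D.C (spl (D.fT α₂ m)).1)
        (fun q => D.σ (α₁, D.hX ((m, (spl (D.fT α₂ m)).1), q)))
        (D.p.eval (spl (D.fT α₂ m)).1.length + 1)
      have h7 := ext_len e
      have h8 := eval_mono D.p h4
      rw [List.length_append]
      change ((stp (D.C (spl (D.fT α₂ m)).1)
        (fun q => D.σ (α₁, D.hX ((m, (spl (D.fT α₂ m)).1), q))))^[D.p.eval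
          (spl (D.fT α₂ m)).1.length + 1] []).length + _ ≤ _
      omega
    refine ⟨e, Or.inl ⟨?_, ?_⟩⟩
    · unfold out
      rw [if_pos hW, hhX _ _ h4 hlen]
      exact he
    · unfold out
      rw [if_pos hW]
      exact hl1 _ _ h4 hlen
  · obtain ⟨e, he⟩ := mistake (D.W m) (fun q => D.σ (α₂, D.hT (m, q))) (D.bd m)
      (fun z hz => D.W_length hz) hR (by rw [← Bool.not_eq_true]; exact hW)
    have hlen : (D.fT α₂ m ++ ext e).length ≤ D.bd m + 2 := by
      have h6 := iter_len (D.W m) (fun q => D.σ (α₂, D.hT (m, q))) (D.bd m + 1)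
      have h7 := ext_len e
      rw [List.length_append]
      change ((stp (D.W m) (fun q => D.σ (α₂, D.hT (m, q))))^[D.bd m + 1] []).length + _ ≤ _
      omega
    refine ⟨e, Or.inr ⟨?_, ?_⟩⟩
    · unfold out
      rw [if_neg hW, hhT _ hlen]
      exact he
    · unfold out
      rw [if_neg hW]
      exact hl2 _ hlen

/-! ### polynomial time -/

theorem pf_C (hV : PF D.V) : PF (fun a : List Bool × List Bool => D.C a.1 a.2) :=
  PF.and (hV.comp (pf_pairBits PF.fst PF.snd))
    (PF.le (PF.length PF.snd) (pf_eval (PF.length PF.fst) D.p))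

theorem pf_fX (hV : PF D.V) (hσ : PF D.σ) (hX : PF D.hX) :
    PF (fun a : (ℕ × List Bool) × List Bool => D.fX a.1.1 a.1.2 a.2) := by
  have h1 : PF (fun a : ((ℕ × List Bool) × List Bool) × List Bool => D.C a.1.2 a.2) :=
    PF.comp (g := fun a : List Bool × List Bool => D.C a.1 a.2)
      (f := fun a : ((ℕ × List Bool) × List Bool) × List Bool => (a.1.2, a.2)) (D.pf_C hV)
      (PF.pair (PF.snd' PF.fst) PF.snd)
  have h2 : PF (fun a : ((ℕ × List Bool) × List Bool) × List Bool =>
      D.hX ((a.1.1.1, a.1.2), a.2)) :=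
    PF.comp (g := D.hX) (f := fun a : ((ℕ × List Bool) × List Bool) × List Bool =>
      ((a.1.1.1, a.1.2), a.2)) hX
      (PF.pair (PF.pair (PF.fst' (PF.fst' PF.fst)) (PF.snd' PF.fst)) PF.snd)
  have h3 : PF (fun a : ((ℕ × List Bool) × List Bool) × List Bool =>
      D.σ (a.1.1.2, D.hX ((a.1.1.1, a.1.2), a.2))) :=
    PF.comp (g := D.σ) (f := fun a : ((ℕ × List Bool) × List Bool) × List Bool =>
      (a.1.1.2, D.hX ((a.1.1.1, a.1.2), a.2))) hσ (PF.pair (PF.snd' (PF.fst' PF.fst)) h2)
  exact Dat2.pf_search (α := (ℕ × List Bool) × List Bool) (W := fun a q => D.C a.2 q)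
    (s := fun a q => D.σ (a.1.2, D.hX ((a.1.1, a.2), q))) (n := fun a => D.p.eval a.2.length + 1)
    h1 h3 (PF.succ (pf_eval (PF.length PF.snd) D.p))

theorem pf_suc1 (hV : PF D.V) (hσ : PF D.σ) (hX : PF D.hX) :
    PF (fun a : (ℕ × List Bool) × List Bool => D.suc1 a.1.1 a.1.2 a.2) :=
  PF.comp (g := fun a : List Bool × List Bool => D.C a.1 a.2)
    (f := fun a : (ℕ × List Bool) × List Bool => (a.2, D.fX a.1.1 a.1.2 a.2))
    (D.pf_C hV) (PF.pair PF.snd (D.pf_fX hV hσ hX))

theorem pf_sucm (hV : PF D.V) (hσ : PF D.σ) (hX : PF D.hX) :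
    PF (fun a : ℕ × List Bool => D.sucm a.1 a.2) :=
  PF.any (l := fun a : ℕ × List Bool => List.range (D.cnt.eval a.1))
    (f := fun a i => D.suc1 a.1 (str i) a.2)
    (PF.range (pf_eval PF.fst D.cnt))
    (PF.comp (g := fun a : (ℕ × List Bool) × List Bool => D.suc1 a.1.1 a.1.2 a.2)
      (f := fun a : (ℕ × List Bool) × ℕ => ((a.1.1, str a.2), a.1.2))
      (D.pf_suc1 hV hσ hX) (PF.pair (PF.pair (PF.fst' PF.fst) (PF.str PF.snd))
        (PF.snd' PF.fst)))

theorem pf_alg (hV : PF D.V) (hσ : PF D.σ) (hX : PF D.hX) : PF D.alg :=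
  PF.any (l := fun x : List Bool => List.range (x.length * x.length + 1))
    (f := fun x m => D.sucm m x)
    (PF.range (PF.succ (PF.mul (PF.length PF.id) (PF.length PF.id))))
    ((D.pf_sucm hV hσ hX).comp (PF.pair PF.snd PF.fst))

theorem pf_W (hV : PF D.V) (hσ : PF D.σ) (hX : PF D.hX) :
    PF (fun a : ℕ × List Bool => D.W a.1 a.2) := by
  have h1 : PF (fun a : ℕ × List Bool => (spl a.2).1) := PF.fst' (PF.spl PF.snd)
  have h2 : PF (fun a : ℕ × List Bool => (spl a.2).2) := PF.snd' (PF.spl PF.snd)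
  have h3 : PF (fun a : ℕ × List Bool => D.C (spl a.2).1 (spl a.2).2) :=
    PF.comp (g := fun a : List Bool × List Bool => D.C a.1 a.2)
      (f := fun a : ℕ × List Bool => ((spl a.2).1, (spl a.2).2)) (D.pf_C hV) (PF.pair h1 h2)
  have h4 : PF (fun a : ℕ × List Bool => D.sucm a.1 (spl a.2).1) :=
    PF.comp (g := fun a : ℕ × List Bool => D.sucm a.1 a.2)
      (f := fun a : ℕ × List Bool => (a.1, (spl a.2).1)) (D.pf_sucm hV hσ hX) (PF.pair PF.fst h1)
  exact PF.and (PF.beqStr (pf_pairBits h1 h2) PF.snd) (PF.and h3 (PF.and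
    (PF.not h4) (PF.and (PF.le (PF.length h1) PF.fst)
      (PF.lt PF.fst (PF.mul (PF.length h1) (PF.length h1))))))

theorem pf_bd {α : Type} [TEnc α] {n : α → ℕ} (hn : PF n) : PF (fun a => D.bd (n a)) :=
  PF.add (PF.add (PF.mul (PF.const 2) hn) (PF.const 1)) (pf_eval hn D.p)

theorem pf_fT (hV : PF D.V) (hσ : PF D.σ) (hX : PF D.hX) (hT : PF D.hT) :
    PF (fun a : List Bool × ℕ => D.fT a.1 a.2) := by
  have h1 : PF (fun a : (List Bool × ℕ) × List Bool => D.W a.1.2 a.2) :=
    PF.comp (g := fun a : ℕ × List Bool => D.W a.1 a.2)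
      (f := fun a : (List Bool × ℕ) × List Bool => (a.1.2, a.2)) (D.pf_W hV hσ hX)
      (PF.pair (PF.snd' PF.fst) PF.snd)
  have h2 : PF (fun a : (List Bool × ℕ) × List Bool => D.hT (a.1.2, a.2)) :=
    PF.comp (g := D.hT) (f := fun a : (List Bool × ℕ) × List Bool => (a.1.2, a.2)) hT
      (PF.pair (PF.snd' PF.fst) PF.snd)
  have h4 : PF (fun a : (List Bool × ℕ) × List Bool => D.σ (a.1.1, D.hT (a.1.2, a.2))) :=
    PF.comp (g := D.σ) (f := fun a : (List Bool × ℕ) × List Bool => (a.1.1, D.hT (a.1.2, a.2)))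
      hσ (PF.pair (PF.fst' PF.fst) h2)
  have h5 : PF (fun a : List Bool × ℕ => D.bd a.2 + 1) := PF.succ (D.pf_bd PF.snd)
  exact Dat2.pf_search (α := List Bool × ℕ) (W := fun a q => D.W a.2 q)
    (s := fun a q => D.σ (a.1, D.hT (a.2, q))) (n := fun a => D.bd a.2 + 1) h1 h4 h5

/-- the candidates, as a function of the description without the code and of `m` -/
theorem pf_out (hV : PF D.V) (hσ : PF D.σ) (hX : PF D.hX) (hT : PF D.hT) :
    PF (fun a : List Bool × ℕ => D.out a.2 (spl (spl (rr a.1)).2).1 (spl (spl (rr a.1)).2).2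
      (ee a.1)) := by
  have hr : PF (fun a : List Bool × ℕ => (spl (rr a.1)).2) :=
    PF.snd' (PF.spl (PF.tail (PF.tail PF.fst)))
  have ha1 : PF (fun a : List Bool × ℕ => (spl (spl (rr a.1)).2).1) := PF.fst' (PF.spl hr)
  have ha2 : PF (fun a : List Bool × ℕ => (spl (spl (rr a.1)).2).2) := PF.snd' (PF.spl hr)
  have h1 : PF (fun a : List Bool × ℕ => D.fT (spl (spl (rr a.1)).2).2 a.2) :=
    PF.comp (g := fun a : List Bool × ℕ => D.fT a.1 a.2)
      (f := fun a : List Bool × ℕ => ((spl (spl (rr a.1)).2).2, a.2))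
      (D.pf_fT hV hσ hX hT) (PF.pair ha2 PF.snd)
  have h2 : PF (fun a : List Bool × ℕ => ext (ee a.1)) := Dat2.pf_ext PF.fst
  have h3 : PF (fun a : List Bool × ℕ => (spl (D.fT (spl (spl (rr a.1)).2).2 a.2)).1) :=
    PF.fst' (PF.spl h1)
  have h4 : PF (fun a : List Bool × ℕ => D.W a.2 (D.fT (spl (spl (rr a.1)).2).2 a.2)) :=
    PF.comp (g := fun a : ℕ × List Bool => D.W a.1 a.2)
      (f := fun a : List Bool × ℕ => (a.2, D.fT (spl (spl (rr a.1)).2).2 a.2))
      (D.pf_W hV hσ hX) (PF.pair PF.snd h1)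
  have h5 : PF (fun a : List Bool × ℕ => D.fX a.2 (spl (spl (rr a.1)).2).1
      (spl (D.fT (spl (spl (rr a.1)).2).2 a.2)).1) :=
    PF.comp (g := fun a : (ℕ × List Bool) × List Bool => D.fX a.1.1 a.1.2 a.2)
      (f := fun a : List Bool × ℕ => ((a.2, (spl (spl (rr a.1)).2).1),
        (spl (D.fT (spl (spl (rr a.1)).2).2 a.2)).1))
      (D.pf_fX hV hσ hX) (PF.pair (PF.pair PF.snd ha1) h3)
  exact PF.ite h4 (hX.comp (PF.pair (PF.pair PF.snd h3) (PF.append h5 h2)))
    (hT.comp (PF.pair PF.snd (PF.append h1 h2)))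

end Dat4

end Pool.Agent.TH755.KA.Ex
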