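import Pool.Agent.TH755.KA.Idx
import Pool.Agent.TH755.KA.TwoE
import Pool.Agent.TH755.KA.Pad
import Pool.Agent.H545R2.KS.Sat

set_option autoImplicit false

/-! A set in `P` with few advice bits which agrees with `SAT` on `K` gives a polynomial-time
algorithm for `SAT`. The plan of the proof is that of `Pool.Agent.TH671.KS.Thm2` (helper671). -/

namespace Pool.Agent.TH755.KA.Ex

open Turing Pool.Agent.H583R2 Filter Pool.Agent.TH671.KS
open Pool.Agent.H545R2.KS (Machine Outputs K Separable PeqNP NPComplete Paddable SAT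
  pf_pairBits spl_pairBits pairBits_length pairBits_inj
  pf_of_polyTime polyTime_of_pf pf_eval pf_pow poly_le_pow eval_mono)
open Pool.Agent.NPC (PolyTime pairBits InNP InP NPHard Reduces)

/-- `S` is decided in polynomial time with advice: for every `n` there is an advice string of
length at most `a n` for the inputs of length `n`. -/
def InPA (a : ℕ → ℕ) (S : Set (List Bool)) : Prop :=
  ∃ T : Set (List Bool), InP T ∧ ∀ n : ℕ, ∃ α : List Bool, α.length ≤ a n ∧
    ∀ x : List Bool, x.length = n → (x ∈ S ↔ pairBits x α ∈ T)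

theorem inP_of_agree_adv {U : Machine} (hU : IsUniversal U) {g G a : ℕ → ℕ}
    (ha : ∃ c, ∀ n, 2 ^ a n ≤ (n + 2) ^ c)
    (hg : ∀ c, ∀ᶠ n in atTop, ∀ N ≤ n ^ c,
      2 * Nat.log 2 (Nat.log 2 (Nat.log 2 n)) + 3 * a N + c ≤ g n)
    (hG : ∀ c, ∀ᶠ n in atTop, n ^ c ≤ G n) {S : Set (List Bool)}
    (hS : InPA a S) (hKS : ∀ x ∈ K U g G, (x ∈ S ↔ x ∈ SAT)) : InP SAT := by
  by_contra hinf
  obtain ⟨ca, hca⟩ := ha
  have hA : NPComplete SAT := Pool.Agent.NPC.H545KS.sat_complete
  obtain ⟨⟨V, p, hV, hVA⟩, hhard⟩ := hA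
  obtain ⟨T, ⟨Td, hTd, hTdT⟩, hadv⟩ := hS
  choose adv hadv1 hadv2 using hadv
  -- the characteristic functions
  have pV : PF (fun z => V z == [true]) := PF.beqStr (pf_of_polyTime hV) (PF.const [true])
  obtain ⟨σ, hσdef⟩ : ∃ σ : List Bool × List Bool → Bool, σ = fun z =>
    Td (pairBits z.2 z.1) == [true] := ⟨_, rfl⟩
  have pσ : PF σ := by
    rw [hσdef]
    exact PF.beqStr ((pf_of_polyTime hTd).comp (pf_pairBits PF.snd PF.fst)) (PF.const [true])
  have hσ : ∀ N x, x.length = N → (σ (adv N, x) = true ↔ x ∈ S) := by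
    intro N x hx
    rw [hadv2 N x hx, hTdT, hσdef]
    exact beq_iff_eq
  -- the reduction for the search for certificates
  obtain ⟨hX, u1, pX, hhX, hlX⟩ : ∃ (hX : (ℕ × List Bool) × List Bool → List Bool)
      (u1 : Polynomial ℕ), PF hX ∧
      (∀ m x q, x.length ≤ m → q.length ≤ p.eval m + 2 →
        (hX ((m, x), q) ∈ SAT ↔ ∃ r, ((V (pairBits x (q ++ r)) == [true]) &&
        decide ((q ++ r).length ≤ p.eval x.length)) = true)) ∧
      (∀ m x q, x.length ≤ m → q.length ≤ p.eval m + 2 →
        (hX ((m, x), q)).length = 2 * (u1 + Polynomial.X).eval m + 1) := by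
    have h1 : PF (fun a : List Bool × List Bool => (spl a.1).1) := PF.fst' (PF.spl PF.fst)
    have h2 : PF (fun a : List Bool × List Bool => (spl a.1).2 ++ a.2) :=
      PF.append (PF.snd' (PF.spl PF.fst)) PF.snd
    have h3 : PF (fun a : List Bool × List Bool =>
        (pairBits (spl a.1).1 (spl a.1).2 == a.1) &&
          ((V (pairBits (spl a.1).1 ((spl a.1).2 ++ a.2)) == [true]) &&
          decide (((spl a.1).2 ++ a.2).length ≤ p.eval (spl a.1).1.length))) :=
      PF.and (PF.beqStr (pf_pairBits h1 (PF.snd' (PF.spl PF.fst))) PF.fst)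
        (PF.and (pV.comp (pf_pairBits h1 h2)) (PF.le (PF.length h2) (pf_eval (PF.length h1) p)))
    obtain ⟨f, hf, hfB⟩ := hhard _ (inNP_of (R := fun u r =>
        (pairBits (spl u).1 (spl u).2 == u) &&
          ((V (pairBits (spl u).1 ((spl u).2 ++ r)) == [true]) &&
          decide (((spl u).2 ++ r).length ≤ p.eval (spl u).1.length))) h3 (b := p) (by
      intro u r hr
      simp only [Bool.and_eq_true, beq_iff_eq, decide_eq_true_eq, List.length_append] at hr
      obtain ⟨h4, -, h5⟩ := hr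
      have e2 : (spl u).1.length ≤ u.length := by
        have := pairBits_length (spl u).1 (spl u).2
        rw [h4] at this
        omega
      have := eval_mono p e2
      omega))
    have pf : PF (fun a : List Bool × List Bool => f (pairBits a.1 a.2)) :=
      (pf_of_polyTime hf).comp (pf_pairBits PF.fst PF.snd)
    obtain ⟨k, hk⟩ := pf.size
    have hbd : ∀ m x q, x.length ≤ m → q.length ≤ p.eval m + 2 →
        (f (pairBits x q)).length ≤ ((Polynomial.C 4 * Polynomial.X + Polynomial.C 4 * p +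
          Polynomial.C 20) ^ k : Polynomial ℕ).eval m := by
      intro m x q h1 h2
      have h3 := hk (x, q)
      have h4 : (f (pairBits x q)).length < sz (f (pairBits x q)) := length_lt_sz _
      rw [sz_pair] at h3
      have h5 := sz_str_le x
      have h6 := sz_str_le q
      simp only [Polynomial.eval_pow, Polynomial.eval_add, Polynomial.eval_mul, Polynomial.eval_C,
        Polynomial.eval_X]
      exact h4.le.trans (h3.trans (Nat.pow_le_pow_left (by omega) k))
    obtain ⟨B, hB⟩ : ∃ B : Polynomial ℕ, B = (Polynomial.C 4 * Polynomial.X + Polynomial.C 4 * p +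
          Polynomial.C 20) ^ k := ⟨_, rfl⟩
    rw [← hB] at hbd
    have hu : ∀ m x q, x.length ≤ m → q.length ≤ p.eval m + 2 →
        (f (pairBits x q)).length + 150 ≤
          2 * (B + Polynomial.C 150 + Polynomial.X : Polynomial ℕ).eval m := by
      intro m x q h1 h2
      have := hbd m x q h1 h2
      simp only [Polynomial.eval_add, Polynomial.eval_C, Polynomial.eval_X]
      omega
    refine ⟨fun a => padE (f (pairBits a.1.2 a.2),
      (B + Polynomial.C 150 + Polynomial.X : Polynomial ℕ).eval a.1.1), B + Polynomial.C 150,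
      ?_, fun m x q h1 h2 => ?_, fun m x q h1 h2 => ?_⟩
    · exact pf_padE.comp (PF.pair (pf.comp (f := fun a : (ℕ × List Bool) × List Bool =>
        (a.1.2, a.2)) (PF.pair (PF.snd' PF.fst) PF.snd)) (pf_eval (PF.fst' PF.fst) _))
    · rw [(padE_spec (hu m x q h1 h2)).2, ← hfB]
      simp only [Set.mem_ofPred_eq, spl_pairBits, beq_self_eq_true, Bool.true_and]
    · exact (padE_spec (hu m x q h1 h2)).1
  obtain ⟨b1, hb1⟩ : ∃ b1 : Polynomial ℕ, ∀ m, b1.eval m = 2 * (u1 + Polynomial.X).eval m + 1 :=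
    ⟨Polynomial.C 2 * (u1 + Polynomial.X) + Polynomial.C 1, fun m => by
      simp only [Polynomial.eval_add, Polynomial.eval_mul, Polynomial.eval_C]⟩
  obtain ⟨cnt, hcnt⟩ : ∃ cnt : Polynomial ℕ, ∀ m, idx (adv (b1.eval m)) < cnt.eval m := by
    refine ⟨Polynomial.C 2 * (b1 + Polynomial.C 2) ^ ca, fun m => ?_⟩
    have h1 := idx_lt (adv (b1.eval m))
    have h2 : 2 ^ ((adv (b1.eval m)).length + 1) ≤ 2 ^ (a (b1.eval m) + 1) :=
      Nat.pow_le_pow_right (by norm_num) (by have := hadv1 (b1.eval m); omega)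
    have h3 := hca (b1.eval m)
    have h4 : 2 ^ (a (b1.eval m) + 1) = 2 ^ a (b1.eval m) * 2 := pow_succ _ _
    simp only [Polynomial.eval_add, Polynomial.eval_mul, Polynomial.eval_C,
      Polynomial.eval_pow]
    omega
  -- data without the second reduction
  let D0 : Dat4 := ⟨fun z => V z == [true], p, σ, hX, fun _ => [], cnt⟩
  have pW : PF (fun a : ℕ × List Bool => D0.W a.1 a.2) := D0.pf_W pV pσ pX
  obtain ⟨hT, u2, pT, hhT, hlT⟩ : ∃ (hT : ℕ × List Bool → List Bool) (u2 : Polynomial ℕ), PF hT ∧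
      (∀ m q, q.length ≤ 2 * m + 1 + p.eval m + 2 →
        (hT (m, q) ∈ SAT ↔ ∃ r, D0.W m (q ++ r) = true)) ∧
      (∀ m q, q.length ≤ 2 * m + 1 + p.eval m + 2 →
        (hT (m, q)).length = 2 * (u2 + Polynomial.X).eval m + 1) := by
    have h1 : PF (fun a : List Bool × List Bool => (spl a.1).1) := PF.fst' (PF.spl PF.fst)
    have h2 : PF (fun a : List Bool × List Bool => (spl a.1).2 ++ a.2) :=
      PF.append (PF.snd' (PF.spl PF.fst)) PF.snd
    have h4 : PF (fun a : List Bool × List Bool => D0.W (spl a.1).1.length ((spl a.1).2 ++ a.2)) :=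
      PF.comp (g := fun a : ℕ × List Bool => D0.W a.1 a.2)
        (f := fun a : List Bool × List Bool => ((spl a.1).1.length, (spl a.1).2 ++ a.2)) pW
        (PF.pair (PF.length h1) h2)
    have h3 : PF (fun a : List Bool × List Bool =>
        (pairBits (spl a.1).1 (spl a.1).2 == a.1) &&
          D0.W (spl a.1).1.length ((spl a.1).2 ++ a.2)) :=
      PF.and (PF.beqStr (pf_pairBits h1 (PF.snd' (PF.spl PF.fst))) PF.fst) h4
    obtain ⟨f, hf, hfB⟩ := hhard _ (inNP_of (R := fun u r =>
        (pairBits (spl u).1 (spl u).2 == u) && D0.W (spl u).1.length ((spl u).2 ++ r)) h3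
      (b := 2 * Polynomial.X + 1 + p) (by
      intro u r hr
      simp only [Bool.and_eq_true, beq_iff_eq] at hr
      obtain ⟨h4, h5⟩ := hr
      have e1 := D0.W_length h5
      have e2 : (spl u).1.length ≤ u.length := by
        have := pairBits_length (spl u).1 (spl u).2
        rw [h4] at this
        omega
      have e3 := eval_mono p e2
      rw [List.length_append] at e1
      simp only [Polynomial.eval_add, Polynomial.eval_mul, Polynomial.eval_X,
        Polynomial.eval_one, Polynomial.eval_ofNat]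
      unfold Dat4.bd at e1
      change _ ≤ 2 * (spl u).1.length + 1 + p.eval (spl u).1.length at e1
      omega))
    have pr : PF (fun a : ℕ × List Bool => List.replicate a.1 true) :=
      PF.replicate PF.fst (PF.const true)
    have pf : PF (fun a : ℕ × List Bool => f (pairBits (List.replicate a.1 true) a.2)) :=
      (pf_of_polyTime hf).comp (pf_pairBits pr PF.snd)
    obtain ⟨k, hk⟩ := pf.size
    have hbd : ∀ m q, q.length ≤ 2 * m + 1 + p.eval m + 2 →
        (f (pairBits (List.replicate m true) q)).length ≤ ((Polynomial.C 10 * Polynomial.X +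
          Polynomial.C 4 * p + Polynomial.C 20) ^ k : Polynomial ℕ).eval m := by
      intro m q h2
      have h3 := hk (m, q)
      have h4 : (f (pairBits (List.replicate m true) q)).length <
        sz (f (pairBits (List.replicate m true) q)) := length_lt_sz _
      rw [sz_pair, sz_nat] at h3
      have h6 := sz_str_le q
      simp only [Polynomial.eval_pow, Polynomial.eval_add, Polynomial.eval_mul, Polynomial.eval_C,
        Polynomial.eval_X]
      exact h4.le.trans (h3.trans (Nat.pow_le_pow_left (by omega) k))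
    obtain ⟨B, hB⟩ : ∃ B : Polynomial ℕ, B = (Polynomial.C 10 * Polynomial.X +
          Polynomial.C 4 * p + Polynomial.C 20) ^ k := ⟨_, rfl⟩
    rw [← hB] at hbd
    have hu : ∀ m q, q.length ≤ 2 * m + 1 + p.eval m + 2 →
        (f (pairBits (List.replicate m true) q)).length + 150 ≤
          2 * (B + Polynomial.C 150 + Polynomial.X : Polynomial ℕ).eval m := by
      intro m q h2
      have := hbd m q h2
      simp only [Polynomial.eval_add, Polynomial.eval_C, Polynomial.eval_X]
      omega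
    refine ⟨fun a => padE (f (pairBits (List.replicate a.1 true) a.2),
      (B + Polynomial.C 150 + Polynomial.X : Polynomial ℕ).eval a.1), B + Polynomial.C 150,
      ?_, fun m q h2 => ?_, fun m q h2 => ?_⟩
    · exact pf_padE.comp (PF.pair pf (pf_eval PF.fst _))
    · rw [(padE_spec (hu m q h2)).2, ← hfB]
      simp only [Set.mem_ofPred_eq, spl_pairBits, beq_self_eq_true, Bool.true_and,
        List.length_replicate]
    · exact (padE_spec (hu m q h2)).1
  obtain ⟨b2, hb2⟩ : ∃ b2 : Polynomial ℕ, ∀ m, b2.eval m = 2 * (u2 + Polynomial.X).eval m + 1 :=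
    ⟨Polynomial.C 2 * (u2 + Polynomial.X) + Polynomial.C 1, fun m => by
      simp only [Polynomial.eval_add, Polynomial.eval_mul, Polynomial.eval_C]⟩
  let D : Dat4 := ⟨fun z => V z == [true], p, σ, hX, hT, cnt⟩
  have hCA : ∀ x w, D.C x w = true → x ∈ SAT := by
    intro x w hw
    have hw' : ((V (pairBits x w) == [true]) && decide (w.length ≤ p.eval x.length)) = true := hw
    rw [Bool.and_eq_true, beq_iff_eq, decide_eq_true_eq] at hw'
    exact (hVA x).2 ⟨w, hw'.2, hw'.1⟩
  -- infinitely many failures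
  have hinf' : ¬ {x | x ∈ SAT ∧ D.alg x = false}.Finite := fun h =>
    hinf (inP_of_finite (D.pf_alg pV pσ pX) (fun x hx => by
      unfold Dat4.alg at hx
      rw [List.any_eq_true] at hx
      obtain ⟨m, -, hm⟩ := hx
      unfold Dat4.sucm at hm
      rw [List.any_eq_true] at hm
      obtain ⟨i, -, hi⟩ := hm
      exact hCA x _ hi) h)
  obtain ⟨c, hc⟩ := exists_index3 hU (hp_of3 (D.pf_out pV pσ pX pT)
    (PF.fst' (PF.spl (PF.tail (PF.tail PF.id)))))
  -- polynomial bounds
  obtain ⟨d1, hd1⟩ := poly_le_pow b1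
  obtain ⟨d2, hd2⟩ := poly_le_pow b2
  obtain ⟨d, hd⟩ : ∃ d, d = 4 * (d1 + d2) + 4 := ⟨_, rfl⟩
  have hpb : ∀ m n : ℕ, 2 ≤ n → m < n * n → b1.eval m ≤ n ^ d ∧ b2.eval m ≤ n ^ d := by
    intro m n hn hm
    have h1 : m + 2 ≤ n ^ 4 := by
      have e1 : n ^ 4 = (n * n) * (n * n) := by ring
      have e2 : 4 ≤ n * n := Nat.mul_le_mul hn hn
      rw [e1]
      nlinarith
    constructor
    · calc b1.eval m ≤ (m + 2) ^ d1 := hd1 m
        _ ≤ (n ^ 4) ^ d1 := Nat.pow_le_pow_left h1 _
        _ = n ^ (4 * d1) := by rw [← pow_mul]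
        _ ≤ n ^ d := Nat.pow_le_pow_right (by omega) (by omega)
    · calc b2.eval m ≤ (m + 2) ^ d2 := hd2 m
        _ ≤ (n ^ 4) ^ d2 := Nat.pow_le_pow_left h1 _
        _ = n ^ (4 * d2) := by rw [← pow_mul]
        _ ≤ n ^ d := Nat.pow_le_pow_right (by omega) (by omega)
  -- large numbers
  obtain ⟨N1, hN1⟩ := eventually_atTop.1 (hg (c + 5 + d))
  obtain ⟨d3, hd3⟩ : ∃ d3, d3 = (d + 1) * ca := ⟨_, rfl⟩
  obtain ⟨N2, hN2⟩ := eventually_atTop.1 (hG ((d3 + 4) * c + 1))
  obtain ⟨N, hNdef⟩ : ∃ N, N = N1 + N2 + 10 := ⟨_, rfl⟩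
  -- a long failure
  obtain ⟨x, hx, hxl⟩ : ∃ x ∈ {x | x ∈ SAT ∧ D.alg x = false}, 2 ^ 2 ^ (N * N + 2) < x.length := by
    by_contra hcon
    push Not at hcon
    refine hinf' (Set.Finite.subset (List.finite_length_le Bool (2 ^ 2 ^ (N * N + 2))) ?_)
    intro x hx
    exact hcon x hx
  classical
  have hex : ∃ i, x.length ≤ 2 ^ 2 ^ i := by
    refine ⟨x.length, ?_⟩
    have h1 : x.length < 2 ^ x.length := Nat.lt_two_pow_self
    have h2 : 2 ^ x.length < 2 ^ 2 ^ x.length := Nat.lt_two_pow_self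
    omega
  obtain ⟨i, hi, hmin⟩ : ∃ i, x.length ≤ 2 ^ 2 ^ i ∧ ∀ j < i, ¬ x.length ≤ 2 ^ 2 ^ j :=
    ⟨Nat.find hex, Nat.find_spec hex, fun j hj => Nat.find_min hex hj⟩
  have hiN : N * N + 2 < i := by
    by_contra hcon
    push Not at hcon
    have : 2 ^ 2 ^ i ≤ 2 ^ 2 ^ (N * N + 2) :=
      Nat.pow_le_pow_right (by norm_num) (Nat.pow_le_pow_right (by norm_num) hcon)
    omega
  have hsq : ∀ j, 2 ^ 2 ^ (j + 1) = 2 ^ 2 ^ j * 2 ^ 2 ^ j := by
    intro j
    rw [pow_succ 2 j, pow_mul, pow_two]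
  obtain ⟨j, rfl⟩ : ∃ j, i = j + 1 := ⟨i - 1, by omega⟩
  have hxj : 2 ^ 2 ^ j < x.length := by
    have := hmin j (by omega)
    omega
  have hmx : 2 ^ 2 ^ (j + 1) < x.length * x.length := by
    rw [hsq]
    exact Nat.mul_lt_mul'' hxj hxj
  have hR : ∃ r, D.W (2 ^ 2 ^ (j + 1)) r = true := by
    obtain ⟨w, hw1, hw2⟩ := (hVA x).1 hx.1
    refine ⟨pairBits x w, ?_⟩
    simp only [Dat4.W, spl_pairBits, Bool.and_eq_true, beq_iff_eq, decide_eq_true_eq,
      Bool.not_eq_true']
    refine ⟨trivial, ?_, ?_, hi, hmx⟩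
    · change ((V (pairBits x w) == [true]) && decide (w.length ≤ p.eval x.length)) = true
      rw [hw2, Bool.and_eq_true, decide_eq_true_eq]
      exact ⟨rfl, hw1⟩
    · have h1 := hx.2
      unfold Dat4.alg at h1
      rw [List.any_eq_false] at h1
      have h2 := h1 (2 ^ 2 ^ (j + 1)) (List.mem_range.2 (by omega))
      simpa using h2
  obtain ⟨m, hm⟩ : ∃ m, m = 2 ^ 2 ^ (j + 1) := ⟨_, rfl⟩
  have hm2 : 2 ≤ m := by
    rw [hm, hsq]
    have : 2 ^ 1 ≤ 2 ^ 2 ^ j := Nat.pow_le_pow_right (by norm_num) Nat.one_le_two_pow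
    nlinarith
  rw [← hm] at hR
  obtain ⟨e, he1⟩ := D.main (A := SAT) (m := m) (L1 := b1.eval m) (L2 := b2.eval m)
    (hhX m) (hhT m) (fun x q h1 h2 => (hlX m x q h1 h2).trans (hb1 m).symm)
    (fun q h2 => (hlT m q h2).trans (hb2 m).symm) hR (hcnt m) (adv (b2.eval m))
  change ((¬ (σ (adv (b1.eval m), D.out m (adv (b1.eval m)) (adv (b2.eval m)) e)
      = true ↔ D.out m (adv (b1.eval m)) (adv (b2.eval m)) e ∈ SAT) ∧
      (D.out m (adv (b1.eval m)) (adv (b2.eval m)) e).length = b1.eval m) ∨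
    (¬ (σ (adv (b2.eval m), D.out m (adv (b1.eval m)) (adv (b2.eval m)) e)
      = true ↔ D.out m (adv (b1.eval m)) (adv (b2.eval m)) e ∈ SAT) ∧
      (D.out m (adv (b1.eval m)) (adv (b2.eval m)) e).length = b2.eval m)) at he1
  have he2 : m + 1 ≤ (D.out m (adv (b1.eval m)) (adv (b2.eval m)) e).length := by
    have e1 := hb1 m
    have e2 := hb2 m
    simp only [Polynomial.eval_add, Polynomial.eval_X] at e1 e2
    rcases he1 with ⟨-, h⟩ | ⟨-, h⟩ <;> omega
  have he3 : m < (D.out m (adv (b1.eval m)) (adv (b2.eval m)) e).length *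
      (D.out m (adv (b1.eval m)) (adv (b2.eval m)) e).length := by
    have := Nat.mul_le_mul he2 he2
    nlinarith
  obtain ⟨y', hy1, hy2⟩ := hc (j + 1) e (pairBits (adv (b1.eval m)) (adv (b2.eval m)))
  dsimp only at hy2
  rw [ee_ds, rr_ds, spl_pairBits] at hy2
  dsimp only at hy2
  rw [spl_pairBits, idx_str, ← hm] at hy2
  dsimp only at hy2
  rw [pairBits_length] at hy1 hy2
  set s := D.out m (adv (b1.eval m)) (adv (b2.eval m)) e with hs
  have hsl : 2 ^ 2 ^ j ≤ s.length := by
    by_contra hcon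
    push Not at hcon
    rw [hm, hsq] at he3
    have := Nat.mul_lt_mul'' hcon hcon
    omega
  have hNs : N ≤ s.length := by
    have h1 : N ≤ j := by nlinarith
    have h2 : j < 2 ^ j := Nat.lt_two_pow_self
    have h3 : 2 ^ j < 2 ^ 2 ^ j := Nat.lt_two_pow_self
    omega
  have hs2 : 2 ≤ s.length := by omega
  obtain ⟨hp1, hp2⟩ := hpb m s.length hs2 he3
  have hA1 := hadv1 (b1.eval m)
  have hA2 := hadv1 (b2.eval m)
  -- the candidate is in `K`
  have hK : s ∈ K U g G := by
    refine ⟨y', ?_, _, ?_, hy2⟩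
    · have hmax : 2 * (adv (b1.eval m)).length + (adv (b2.eval m)).length +
          (2 * Nat.log 2 (Nat.log 2 (Nat.log 2 s.length)) + (c + 5 + d)) ≤ g s.length := by
        have hle : ∀ r, r ≤ s.length ^ d → r ≤ s.length ^ (c + 5 + d) := fun r hr =>
          hr.trans (Nat.pow_le_pow_right (by omega) (by omega))
        have k1 := hN1 s.length (by omega) (b1.eval m) (hle _ hp1)
        have k2 := hN1 s.length (by omega) (b2.eval m) (hle _ hp2)
        omega
      have h1 : 2 ^ j ≤ Nat.log 2 s.length := Nat.le_log_of_pow_le (by norm_num) hsl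
      have h2 : j ≤ Nat.log 2 (Nat.log 2 s.length) := Nat.le_log_of_pow_le (by norm_num) h1
      have h3 : Nat.log 2 j ≤ Nat.log 2 (Nat.log 2 (Nat.log 2 s.length)) := Nat.log_mono_right h2
      have h4 : Nat.log 2 (j + 1 + 1) ≤ Nat.log 2 j + 2 := by
        have h5 : j + 1 + 1 ≤ j * 2 * 2 := by omega
        refine (Nat.log_mono_right h5).trans ?_
        rw [Nat.log_mul_base (by norm_num) (by omega), Nat.log_mul_base (by norm_num) (by omega)]
      omega
    · refine lt_of_lt_of_le ?_ (hN2 s.length (by omega))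
      have g0 : ∀ r, r ≤ s.length ^ d → a r < s.length ^ d3 := by
        intro r hr
        have q1 : a r < 2 ^ a r := Nat.lt_two_pow_self
        have q2 := hca r
        have q3 : r + 2 ≤ s.length ^ (d + 1) := by
          have e2 : 1 ≤ s.length ^ d := Nat.one_le_pow _ _ (by omega)
          have e3 : s.length ^ (d + 1) = s.length ^ d * s.length := pow_succ _ _
          have e4 : s.length ^ d * 10 ≤ s.length ^ d * s.length :=
            Nat.mul_le_mul_left _ (by omega)
          omega
        have q4 : (r + 2) ^ ca ≤ s.length ^ d3 := by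
          rw [hd3, pow_mul]
          exact Nat.pow_le_pow_left q3 ca
        omega
      have g1 : 2 * (adv (b1.eval m)).length + 1 + (adv (b2.eval m)).length ≤
          3 * s.length ^ d3 := by
        have q1 := g0 _ hp1
        have q2 := g0 _ hp2
        omega
      have g2 : m + (2 * (adv (b1.eval m)).length + 1 + (adv (b2.eval m)).length) ≤
          s.length ^ (d3 + 4) := by
        have e1 : s.length ^ (d3 + 4) = s.length ^ d3 * (s.length * s.length) *
          (s.length * s.length) := by ring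
        have e2 : 1 ≤ s.length ^ d3 := Nat.one_le_pow _ _ (by omega)
        have e3 : 100 ≤ s.length * s.length := by nlinarith
        set L := s.length with hL
        set B := L ^ d3 with hB
        have e5 : L ≤ L * L := Nat.le_mul_of_pos_left _ (by omega)
        have e6 : L * L ≤ B * (L * L) := Nat.le_mul_of_pos_left _ e2
        have e7 : B ≤ B * (L * L) := Nat.le_mul_of_pos_right _ (by omega)
        have e8 : B * (L * L) * 100 ≤ B * (L * L) * (L * L) := Nat.mul_le_mul_left _ e3
        rw [e1]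
        omega
      calc (m + (2 * (adv (b1.eval m)).length + 1 + (adv (b2.eval m)).length)) ^ c
          ≤ (s.length ^ (d3 + 4)) ^ c := Nat.pow_le_pow_left g2 c
        _ = s.length ^ ((d3 + 4) * c) := by rw [← pow_mul]
        _ < s.length ^ ((d3 + 4) * c + 1) := Nat.pow_lt_pow_right (by omega) (by omega)
  rcases he1 with ⟨h1, h2⟩ | ⟨h1, h2⟩
  · exact h1 ((hσ _ _ h2).trans (hKS s hK))
  · exact h1 ((hσ _ _ h2).trans (hKS s hK))

end Pool.Agent.TH755.KA.Ex
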